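import Pool.Agent.TTC.Stmts

set_option autoImplicit false

open Polynomial

namespace Pool.Agent.TTC.H60

theorem qp_monic (a : Fin 4 → ℤ) (c : ℤ) : (qp a c).Monic := by
  unfold qp
  monicity!

theorem qp_natDegree (a : Fin 4 → ℤ) (c : ℤ) : (qp a c).natDegree = 5 := by
  unfold qp
  compute_degree!

theorem sqf : SqfStmt := by
  intro a c h
  set f := qp a c with hf
  have hm : f.Monic := qp_monic a c
  have hd : f.natDegree = 5 := qp_natDegree a c
  have hdeg : 0 < f.degree := by
    rw [← natDegree_pos_iff_degree_pos, hd]; norm_num
  have h1 := resultant_deriv hdeg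
  have h2 : resultant f f.derivative f.natDegree (f.natDegree - 1) ≠ 0 := by
    rw [h1, hm.leadingCoeff]
    simp [h]
  apply Polynomial.Separable.squarefree
  unfold Polynomial.Separable
  set g := f.map (Int.castRingHom ℚ) with hg
  have hinj : Function.Injective (Int.castRingHom ℚ) := Int.cast_injective
  have hgd : g.natDegree = f.natDegree := natDegree_map_eq_of_injective hinj f
  have hdg : derivative g = (derivative f).map (Int.castRingHom ℚ) := derivative_map f _
  have hdn : (derivative g).natDegree = f.natDegree - 1 := by
    rw [← hgd]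
    exact natDegree_derivative g
  by_contra hc
  have h3 : resultant g (derivative g) = 0 := by
    rw [resultant_eq_zero_iff]
    exact ⟨Or.inl (hm.map _).ne_zero, hc⟩
  rw [hgd, hdn, hdg, hg, resultant_map_map] at h3
  apply h2
  exact hinj (by rw [h3, map_zero])

end Pool.Agent.TTC.H60
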